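import Pool.Agent.Q122.Anti.Double

set_option autoImplicit false

/-!
# The bound `τ(G) ≤ β(G)` is not always attained
-/

namespace Pool.Agent.Results.MP_f5b38d_co.DoubleStar

open Q122.Anti

/-- There is a finite graph `G` (the double star `S_{1,17}`, a tree with 20 vertices), without
isolated vertices and without a component isomorphic to `P₂`, which is antimagic and for which
`β(G) = 41`, while `τ(G) < β(G)`. -/
theorem result : ∃ (V : Type) (_ : Fintype V) (G : SimpleGraph V),
    G.Connected ∧
    (∀ v, ∃ w, G.Adj v w) ∧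
    (∀ c : G.ConnectedComponent, ¬ Nonempty (c.toSimpleGraph ≃g SimpleGraph.pathGraph 2)) ∧
    IsAntimagic G ∧ beta G = 41 ∧ 0 ≤ beta G ∧
    BddAbove (tauSet G) ∧
    tau G < (beta G : WithBot ℤ) := by
  refine ⟨Bool ⊕ (Fin 1 ⊕ Fin 17), inferInstance, doubleStar 1 17, ?_, ?_, ?_,
    double_antimagic, double_beta, ?_, ?_, double_tau⟩
  · exact ⟨double_preconnected 1 17⟩
  · intro v
    rcases v with v | v | v
    · cases v
      · exact ⟨Sum.inl true, Bool.false_ne_true⟩
      · exact ⟨Sum.inl false, Bool.false_ne_true.symm⟩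
    · exact ⟨Sum.inl false, (rfl : false = false)⟩
    · exact ⟨Sum.inl true, (rfl : true = true)⟩
  · exact no_component _ (double_preconnected 1 17) 2 (by simp)
  · rw [double_beta]
    norm_num
  · exact ⟨40, double_tauSet⟩

end Pool.Agent.Results.MP_f5b38d_co.DoubleStar
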